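import Pool.Agent.Helper35.HG.StB

/-! # Module PBN of the project HG: barriers -/

set_option autoImplicit false

namespace Helper67.HG

open Helper35.HG Helper35.HC Helper35.HSF Helper35.MS Helper35.PI Helper35.PI2 Helper32.CL
open scoped ContDiff Manifold Topology ENNReal BigOperators
open MeasureTheory Set Filter

/-! ### Linear algebra -/

theorem sum4 {n : ℕ} (f : Fin n → Fin n → Fin n → Fin n → ℝ) :
    ∑ a, ∑ b, ∑ i, ∑ j, f a b i j = ∑ i, ∑ j, ∑ a, ∑ b, f a b i j := by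
  have h1 : ∑ a, ∑ b, ∑ i, ∑ j, f a b i j
      = ∑ p : Fin n × Fin n, ∑ q : Fin n × Fin n, f p.1 p.2 q.1 q.2 := by
    simp only [Fintype.sum_prod_type]
  have h2 : ∑ i, ∑ j, ∑ a, ∑ b, f a b i j
      = ∑ q : Fin n × Fin n, ∑ p : Fin n × Fin n, f p.1 p.2 q.1 q.2 := by
    simp only [Fintype.sum_prod_type]
  rw [h1, h2, Finset.sum_comm]

theorem bil_change {n : ℕ} (K : Fin n → Fin n → ℝ) (O : Fin n → Fin n → ℝ) (P' Q' U W : Fin n → ℝ)
    (hU : ∀ i, U i = ∑ a, P' a * O a i) (hW : ∀ i, W i = ∑ a, Q' a * O a i) :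
    bil K U W = bil (fun a b => bil K (O a) (O b)) P' Q' := by
  have h1 : bil K U W = ∑ i, ∑ j, ∑ a, ∑ b, K i j * (P' a * O a i * (Q' b * O b j)) := by
    simp only [bil]
    refine Finset.sum_congr rfl fun i _ => Finset.sum_congr rfl fun j _ => ?_
    rw [hU, hW, Finset.sum_mul_sum, Finset.mul_sum]
    refine Finset.sum_congr rfl fun a _ => ?_
    rw [Finset.mul_sum]
  rw [h1, sum4]
  simp only [bil]
  refine Finset.sum_congr rfl fun a _ => Finset.sum_congr rfl fun b _ => ?_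
  rw [Finset.sum_mul]
  refine Finset.sum_congr rfl fun i _ => ?_
  rw [Finset.sum_mul]
  refine Finset.sum_congr rfl fun j _ => ?_
  ring

theorem ip0_eq {n : ℕ} (hn : 1 ≤ n) (X : Fin n → Fin n → ℝ) :
    ip0 X X = (∑ i, ∑ j, X i j ^ 2) - (∑ i, X i i) ^ 2 / n := by
  have hn0 : (n : ℝ) ≠ 0 := by
    have : 0 < n := hn
    positivity
  have h1 : ∀ i j, tl X i j * tl X i j
      = X i j ^ 2 - (if i = j then (2 * mt X * X i j - mt X ^ 2) else 0) := by
    intro i j
    simp only [tl]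
    split_ifs
    · ring
    · ring
  simp only [ip0, h1, Finset.sum_sub_distrib, Finset.sum_ite_eq, Finset.mem_univ, if_true]
  rw [← Finset.mul_sum, Finset.sum_const, Finset.card_univ, Fintype.card_fin, nsmul_eq_mul]
  have h2 : mt X = (∑ i, X i i) / n := rfl
  rw [h2]
  field_simp
  ring

theorem orth_tr {n : ℕ} (K O : Fin n → Fin n → ℝ)
    (hO : ∀ a b, ∑ i, O i a * O i b = if a = b then 1 else 0) :
    ∑ i, bil K (O i) (O i) = ∑ a, K a a := by
  simp only [bil]
  rw [Finset.sum_comm]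
  refine Finset.sum_congr rfl fun a _ => ?_
  rw [Finset.sum_comm]
  have : ∀ b, ∑ i, K a b * (O i a * O i b) = if a = b then K a b else 0 := by
    intro b
    rw [← Finset.mul_sum, hO]
    split_ifs <;> simp
  simp only [this, Finset.sum_ite_eq, Finset.mem_univ, if_true]

theorem orth_sq {n : ℕ} (K O : Fin n → Fin n → ℝ)
    (hO : ∀ a b, ∑ i, O i a * O i b = if a = b then 1 else 0) :
    ∑ i, ∑ j, bil K (O i) (O j) ^ 2 = ∑ a, ∑ b, K a b ^ 2 := by
  set Om : Matrix (Fin n) (Fin n) ℝ := Matrix.of O with hOm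
  set Km : Matrix (Fin n) (Fin n) ℝ := Matrix.of K with hKm
  have h1 : Om.transpose * Om = 1 := by
    ext a b
    rw [Matrix.mul_apply, Matrix.one_apply]
    simpa [hOm] using hO a b
  have h2 : ∀ X : Matrix (Fin n) (Fin n) ℝ, ∑ i, ∑ j, X i j ^ 2 = (X * X.transpose).trace := by
    intro X
    simp only [Matrix.trace, Matrix.diag, Matrix.mul_apply, Matrix.transpose_apply, _root_.sq]
  have h3 : ∀ i j, bil K (O i) (O j) = (Om * Km * Om.transpose) i j := by
    intro i j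
    rw [Matrix.mul_apply]
    simp only [Matrix.mul_apply, Matrix.transpose_apply, hOm, hKm, Matrix.of_apply, bil,
      Finset.sum_mul]
    rw [Finset.sum_comm]
    refine Finset.sum_congr rfl fun a _ => Finset.sum_congr rfl fun b _ => ?_
    ring
  simp only [h3]
  rw [h2]
  have h4 : ∑ a, ∑ b, K a b ^ 2 = (Km * Km.transpose).trace := by
    rw [← h2]
    rfl
  rw [h4]
  have h5 : Om * Km * Om.transpose * (Om * Km * Om.transpose).transpose
      = Om * (Km * Km.transpose) * Om.transpose := by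
    simp only [Matrix.transpose_mul, Matrix.transpose_transpose]
    calc Om * Km * Om.transpose * (Om * (Km.transpose * Om.transpose))
        = Om * Km * (Om.transpose * Om) * (Km.transpose * Om.transpose) := by
          simp only [Matrix.mul_assoc]
      _ = Om * (Km * Km.transpose) * Om.transpose := by
          rw [h1, Matrix.mul_one]
          simp only [Matrix.mul_assoc]
  rw [h5, Matrix.trace_mul_comm, ← Matrix.mul_assoc, h1, Matrix.one_mul]

theorem inner_sum_on {n N : ℕ} (E : Fin n → EE N)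
    (hE : ∀ i j, (inner ℝ (E i) (E j) : ℝ) = if i = j then 1 else 0) (U V : Fin n → ℝ) :
    (inner ℝ (∑ i, U i • E i) (∑ i, V i • E i) : ℝ) = ∑ i, U i * V i := by
  rw [sum_inner]
  refine Finset.sum_congr rfl fun i _ => ?_
  rw [inner_sum]
  have : ∀ j, (inner ℝ (U i • E i) (V j • E j) : ℝ) = if i = j then U i * V j else 0 := by
    intro j
    rw [inner_smul_left, inner_smul_right, hE]
    split_ifs <;> simp
  simp only [this, Finset.sum_ite_eq, Finset.mem_univ, if_true]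

theorem L_on {n N : ℕ} (L : EE n →ₗᵢ[ℝ] EE N) (i j : Fin n) :
    (inner ℝ (L (ee i)) (L (ee j)) : ℝ) = if i = j then 1 else 0 := by
  rw [L.inner_map_map]
  simp only [ee, EuclideanSpace.inner_single_left, PiLp.single_apply]
  split_ifs <;> simp_all

theorem on_inj {n N : ℕ} (E : Fin n → EE N)
    (hE : ∀ i j, (inner ℝ (E i) (E j) : ℝ) = if i = j then 1 else 0) (U V : Fin n → ℝ)
    (h : ∑ i, U i • E i = ∑ i, V i • E i) : U = V := by
  funext k
  have h1 : ∀ W : Fin n → ℝ, (inner ℝ (∑ i, W i • E i) (E k) : ℝ) = W k := by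
    intro W
    rw [sum_inner]
    have : ∀ i, (inner ℝ (W i • E i) (E k) : ℝ) = if i = k then W i else 0 := by
      intro i
      rw [inner_smul_left, hE]
      split_ifs <;> simp
    simp only [this, Finset.sum_ite_eq', Finset.mem_univ, if_true]
  rw [← h1 U, ← h1 V, h]

theorem kn_bilV {n N : ℕ} (A : Fin n → Fin n → EE N) (U V : Fin n → ℝ) (ν : EE N) :
    (inner ℝ (bilV A U V) ν : ℝ) = bil (kn A ν) U V := by
  simp only [bilV, bil, Helper35.HG.kn, sum_inner, inner_smul_left]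
  refine Finset.sum_congr rfl fun i _ => Finset.sum_congr rfl fun j _ => ?_
  simp only [conj_trivial]
  ring

theorem Hv_kn {n N : ℕ} (A : Fin n → Fin n → EE N) (ν : EE N) :
    (inner ℝ (Hv A) ν : ℝ) = ∑ i, kn A ν i i := by
  simp only [Hv, Helper35.HG.kn, sum_inner]

section

variable {n N : ℕ} {M : Type} [TopologicalSpace M] [ChartedSpace (EE n) M]

theorem tv_inj {J : Set ℝ} {F : M → ℝ → EE N} (hF : IsImmJ (n := n) J F) {p : M} {t : ℝ}
    (ht : t ∈ J) {c d : Fin n → ℝ} (h : tv F p t c = tv F p t d) : c = d := by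
  have h1 := hF.imm p t ht
  have h2 : ∑ i, (c i - d i) • dv1 (loc (n := n) F p t) (chartAt (EE n) p p) i = 0 := by
    simp only [sub_smul, Finset.sum_sub_distrib]
    simp only [tv] at h
    rw [h, sub_self]
  rw [Fintype.linearIndependent_iff] at h1
  have h3 := h1 (fun i => c i - d i) h2
  funext i
  linarith [h3 i]

theorem tv_mem (F : M → ℝ → EE N) (p : M) (t : ℝ) (c : Fin n → ℝ) :
    tv F p t c ∈ TS (n := n) F p t := by
  unfold tv TS
  exact Submodule.sum_mem _ fun i _ => Submodule.smul_mem _ _ (Submodule.subset_span ⟨i, rfl⟩)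

/-- membership of the values of the barriers -/
theorem mem_gen (hFR : StFR) (hNR : StNR) (hn : 1 ≤ n) {J : Set ℝ} {F : M → ℝ → EE N}
    (hF : IsImmJ (n := n) J F) {q : M} {t : ℝ} (ht : t ∈ J) (φ : EE n → EE N) (y : EE n)
    (hLI : LI φ y)
    (h : ∀ U V : Fin n → ℝ, ∃ c d : Fin n → ℝ, tv F q t c = ∑ i, U i • dv1 φ y i ∧
      tv F q t d = ∑ i, V i • dv1 φ y i ∧
      Ab F q t c d = ∑ i, ∑ j, (U i * V j) • sff φ y i j)
    (hts : Submodule.span ℝ (range fun i => dv1 φ y i) = TS (n := n) F q t)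
    (hx : F q t = φ y) (ρ : ℝ) (hρ : 0 < ρ) (hxx : (inner ℝ (φ y) (φ y) : ℝ) = ρ)
    (hxf : ∀ i, (inner ℝ (φ y) (dv1 φ y i) : ℝ) = 0) (ν : EE N) (hν : ‖ν‖ = 1) (Nf : ℝ)
    (hNf : Nf = 1 - (∑ a, ∑ b, (gram φ y)⁻¹ a b * (inner ℝ ν (dv1 φ y a)
      * inner ℝ ν (dv1 φ y b))) - inner ℝ ν (φ y) ^ 2 / ρ) (hN0 : 0 < Nf)
    (kf : Fin n → Fin n → ℝ)
    (hkf : ∀ i j, kf i j = inner ℝ (sff φ y i j) ν
      - inner ℝ ν (φ y) * inner ℝ (sff φ y i j) (φ y) / ρ)
    (P Q : Fin n → ℝ) (hOP : OP P Q) (g : (Fin n → ℝ) → (Fin n → ℝ) → ℝ)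
    (hg : ∀ c d, g c d = inner ℝ (∑ i, c i • dv1 φ y i) (∑ i, d i • dv1 φ y i)) :
    ((bil kf P Q - g P Q / g P P * bil kf P P) ^ 2 / ((g P P * g Q Q - g P Q ^ 2) * Nf),
      (∑ i, ∑ j, ∑ k, ∑ l, (gram φ y)⁻¹ i k * (gram φ y)⁻¹ j l * (kf i j * kf k l)) / Nf
        - (∑ i, ∑ j, (gram φ y)⁻¹ i j * kf i j) ^ 2 / Nf / n,
      (∑ i, ∑ j, (gram φ y)⁻¹ i j * kf i j) ^ 2 / Nf) ∈ PNN n F q t := by
  obtain ⟨-, -, Pi, hP1, hPu, -, hon, -, hsc, -⟩ := hFR n N φ y hLI
  obtain ⟨r1, -, -, r4, -, -, r7, -⟩ := hNR n N φ y hLI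
  -- the frame
  have hC0 : ∀ a, ∃ c : Fin n → ℝ, tv F q t c = ∑ i, Pi i a • dv1 φ y i := fun a => by
    obtain ⟨c, d, h1, -, -⟩ := h (fun i => Pi i a) (fun i => Pi i a)
    exact ⟨c, h1⟩
  choose C hC using hC0
  have hAb : ∀ a b, Ab F q t (C a) (C b) = ∑ i, ∑ j, (Pi i a * Pi j b) • sff φ y i j := by
    intro a b
    obtain ⟨c, d, h1, h2, h3⟩ := h (fun i => Pi i a) (fun i => Pi i b)
    have e1 : c = C a := tv_inj hF ht (h1.trans (hC a).symm)
    have e2 : d = C b := tv_inj hF ht (h2.trans (hC b).symm)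
    rw [← e1, ← e2]
    exact h3
  -- the normal
  set x : EE N := φ y with hxdef
  set w : EE N := nrm φ y ν - ((inner ℝ ν x : ℝ) / ρ) • x with hw
  have hρ0 : ρ ≠ 0 := hρ.ne'
  have hnx : nrm φ y x = x := r4 x hxf
  have hw1 : ∀ i, (inner ℝ w (dv1 φ y i) : ℝ) = 0 := by
    intro i
    rw [hw, inner_sub_left, inner_smul_left, r1, hxf]
    simp
  have hw2 : (inner ℝ w x : ℝ) = 0 := by
    rw [hw, inner_sub_left, inner_smul_left, r7, hnx, hxx]
    simp only [conj_trivial]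
    field_simp
    ring
  have hw3 : (inner ℝ w ν : ℝ) = Nf := by
    rw [hw, inner_sub_left, inner_smul_left, hNf]
    have e1 : (inner ℝ (nrm φ y ν) ν : ℝ)
        = 1 - ∑ a, ∑ b, (gram φ y)⁻¹ a b * (inner ℝ ν (dv1 φ y a) * inner ℝ ν (dv1 φ y b)) := by
      rw [nrm, inner_sub_left, real_inner_self_eq_norm_sq, hν, sum_inner]
      congr 1
      · norm_num
      · refine Finset.sum_congr rfl fun a _ => ?_
        rw [sum_inner]
        refine Finset.sum_congr rfl fun b _ => ?_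
        rw [inner_smul_left, real_inner_comm ν (dv1 φ y b)]
        simp only [conj_trivial]
        ring
    rw [e1, real_inner_comm ν x]
    simp only [conj_trivial]
    ring
  have hww : (inner ℝ w w : ℝ) = Nf := by
    have e1 : (inner ℝ w w : ℝ) = inner ℝ w (nrm φ y ν) - ((inner ℝ ν x : ℝ) / ρ) * inner ℝ w x := by
      conv_lhs => rw [hw]
      rw [← hw, inner_sub_right, inner_smul_right]
    rw [e1, hw2, ← r7, r4 w hw1, hw3]
    ring
  have hS : ∀ i j, (inner ℝ (sff φ y i j) w : ℝ) = kf i j := by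
    intro i j
    have e1 : nrm φ y (sff φ y i j) = sff φ y i j := r4 _ fun k => r1 _ k
    rw [hw, inner_sub_right, inner_smul_right, ← r7, e1, hkf]
    ring
  set sN : ℝ := √Nf with hsN
  have hsN0 : 0 < sN := Real.sqrt_pos.2 hN0
  have hsN2 : sN ^ 2 = Nf := Real.sq_sqrt hN0.le
  set μ : EE N := sN⁻¹ • w with hμ
  have hkn : ∀ a b, kn (AC F q t C) μ a b
      = sN⁻¹ * ∑ i, ∑ j, Pi i a * Pi j b * kf i j := by
    intro a b
    rw [Helper35.HG.kn, AC, hAb, hμ, inner_smul_right, sum_inner]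
    congr 1
    refine Finset.sum_congr rfl fun i _ => ?_
    rw [sum_inner]
    refine Finset.sum_congr rfl fun j _ => ?_
    rw [inner_smul_left, hS]
    simp only [conj_trivial]
  have hkn' : kn (AC F q t C) μ
      = fun a b => bil (fun i j => sN⁻¹ * kf i j) (fun i => Pi i a) (fun i => Pi i b) := by
    funext a b
    rw [hkn, bil, Finset.mul_sum]
    refine Finset.sum_congr rfl fun i _ => ?_
    rw [Finset.mul_sum]
    refine Finset.sum_congr rfl fun j _ => ?_
    ring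
  -- the orthonormal pair
  obtain ⟨o1, o2, o3⟩ := hOP
  set p : EE N := ∑ i, P i • dv1 φ y i with hp
  set w0 : EE N := ∑ i, Q i • dv1 φ y i with hw0
  set a : ℝ := g P P with ha
  set b : ℝ := g P Q with hb
  have hap : a = ‖p‖ ^ 2 := by rw [ha, hg, real_inner_self_eq_norm_sq]
  have hbp : b = inner ℝ p w0 := by rw [hb, hg]
  have hcp : g Q Q = ‖w0‖ ^ 2 := by rw [hg, real_inner_self_eq_norm_sq]
  have hli := hLI
  unfold LI at hli
  rw [Fintype.linearIndependent_iff] at hli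
  have hp0 : p ≠ 0 := by
    intro h0
    have h1 := hli P h0
    have : ∑ i, P i ^ 2 = 0 := Finset.sum_eq_zero fun i _ => by rw [h1 i]; ring
    linarith
  have ha0 : 0 < a := by rw [hap]; positivity
  set v : EE N := w0 - (b / a) • p with hv
  have hve : v = ∑ i, (Q i - (b / a) * P i) • dv1 φ y i := by
    rw [hv, hw0, hp, Finset.smul_sum, ← Finset.sum_sub_distrib]
    refine Finset.sum_congr rfl fun i _ => ?_
    rw [sub_smul, mul_smul]
  have hv0' : v ≠ 0 := by
    intro h0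
    rw [hve] at h0
    have h1 := hli _ h0
    have h2 : ∑ i, (Q i - (b / a) * P i) * Q i = 0 :=
      Finset.sum_eq_zero fun i _ => by rw [h1 i]; ring
    have h3 : ∑ i, (Q i - (b / a) * P i) * Q i = ∑ i, Q i ^ 2 - (b / a) * ∑ i, P i * Q i := by
      rw [Finset.mul_sum, ← Finset.sum_sub_distrib]
      exact Finset.sum_congr rfl fun i _ => by ring
    rw [h3, o2, o3] at h2
    linarith
  have hpv : (inner ℝ p v : ℝ) = 0 := by
    rw [hv, inner_sub_right, inner_smul_right, real_inner_self_eq_norm_sq, ← hap, ← hbp]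
    field_simp
    ring
  set s : ℝ := ‖v‖ ^ 2 with hs
  have hs0 : 0 < s := by rw [hs]; positivity
  have hw0n : ‖w0‖ ^ 2 = s + b ^ 2 / a := by
    have h1 : w0 = v + (b / a) • p := by rw [hv]; abel
    rw [h1, norm_add_sq_real, inner_smul_right, real_inner_comm, hpv, norm_smul, mul_pow, ← hap,
      Real.norm_eq_abs, sq_abs, ← hs]
    field_simp
    ring
  have hdisc : a * g Q Q - b ^ 2 = a * s := by
    rw [hcp, hw0n]
    field_simp
    ring
  have hsa : (√a) ^ 2 = a := Real.sq_sqrt ha0.le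
  have hss : (√s) ^ 2 = s := Real.sq_sqrt hs0.le
  have hsa0 : 0 < √a := Real.sqrt_pos.2 ha0
  have hss0 : 0 < √s := Real.sqrt_pos.2 hs0
  set U : Fin n → ℝ := fun i => (√a)⁻¹ * P i with hU
  set W : Fin n → ℝ := fun i => (√s)⁻¹ * (Q i - (b / a) * P i) with hW
  have hinv : Pi * Pi⁻¹ = 1 := Matrix.mul_nonsing_inv _ hPu
  have hback : ∀ (V : Fin n → ℝ) (i : Fin n), V i = ∑ k, (Pi⁻¹.mulVec V) k * Pi i k := by
    intro V i
    have h1 : Pi.mulVec (Pi⁻¹.mulVec V) = V := by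
      rw [Matrix.mulVec_mulVec, hinv, Matrix.one_mulVec]
    conv_lhs => rw [← h1]
    rw [Matrix.mulVec, dotProduct]
    exact Finset.sum_congr rfl fun k _ => mul_comm _ _
  have hvecb : ∀ V : Fin n → ℝ, ∑ i, V i • dv1 φ y i
      = ∑ k, (Pi⁻¹.mulVec V) k • ∑ i, Pi i k • dv1 φ y i := by
    intro V
    have h1 : ∑ i, V i • dv1 φ y i = ∑ i, ∑ k, ((Pi⁻¹.mulVec V) k * Pi i k) • dv1 φ y i := by
      refine Finset.sum_congr rfl fun i _ => ?_
      rw [← Finset.sum_smul, ← hback V i]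
    rw [h1, Finset.sum_comm]
    refine Finset.sum_congr rfl fun k _ => ?_
    rw [Finset.smul_sum]
    exact Finset.sum_congr rfl fun i _ => by rw [mul_smul]
  have hdot : ∀ V V' : Fin n → ℝ, ∑ k, (Pi⁻¹.mulVec V) k * (Pi⁻¹.mulVec V') k
      = inner ℝ (∑ i, V i • dv1 φ y i) (∑ i, V' i • dv1 φ y i) := by
    intro V V'
    rw [hvecb V, hvecb V', inner_sum_on _ hon]
  have hUv : ∑ i, U i • dv1 φ y i = (√a)⁻¹ • p := by
    rw [hp, Finset.smul_sum]
    exact Finset.sum_congr rfl fun i _ => by rw [hU, mul_smul]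
  have hWv : ∑ i, W i • dv1 φ y i = (√s)⁻¹ • v := by
    rw [hve, Finset.smul_sum]
    exact Finset.sum_congr rfl fun i _ => by rw [hW, mul_smul]
  refine ⟨C, μ, ⟨?_, ?_, ?_, ?_⟩, Pi⁻¹.mulVec U, Pi⁻¹.mulVec W, ⟨?_, ?_, ?_⟩, ?_⟩
  · intro i j
    rw [gb, hC, hC]
    exact hon i j
  · have h1 : ‖w‖ ^ 2 = Nf := by rw [← real_inner_self_eq_norm_sq, hww]
    have h2 : ‖w‖ = sN := by
      rw [hsN, ← h1, Real.sqrt_sq (norm_nonneg _)]
    rw [hμ, norm_smul, norm_inv, Real.norm_eq_abs, abs_of_pos hsN0, h2, inv_mul_cancel₀ hsN0.ne']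
  · rw [hx, hμ, inner_smul_left, hw2, mul_zero]
  · intro c
    have h1 : tv F q t c ∈ Submodule.span ℝ (range fun i => dv1 φ y i) := by
      rw [hts]
      exact tv_mem F q t c
    rw [hμ, inner_smul_left]
    have h2 : (inner ℝ w (tv F q t c) : ℝ) = 0 := by
      refine Submodule.span_induction (p := fun z _ => (inner ℝ w z : ℝ) = 0) ?_ ?_ ?_ ?_ h1
      · rintro _ ⟨i, rfl⟩
        exact hw1 i
      · simp
      · intro z z' _ _ hz hz'
        rw [inner_add_right, hz, hz', add_zero]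
      · intro r z _ hz
        rw [inner_smul_right, hz, mul_zero]
    rw [h2, mul_zero]
  · have h1 := hdot U U
    rw [hUv, real_inner_self_eq_norm_sq, norm_smul, mul_pow, ← hap, Real.norm_eq_abs, sq_abs,
      inv_pow, hsa, inv_mul_cancel₀ ha0.ne'] at h1
    rw [← h1]
    exact Finset.sum_congr rfl fun i _ => by ring
  · have h1 := hdot W W
    rw [hWv, real_inner_self_eq_norm_sq, norm_smul, mul_pow, ← hs, Real.norm_eq_abs, sq_abs,
      inv_pow, hss, inv_mul_cancel₀ hs0.ne'] at h1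
    rw [← h1]
    exact Finset.sum_congr rfl fun i _ => by ring
  · rw [hdot U W, hUv, hWv, inner_smul_left, inner_smul_right, hpv]
    simp
  · have hGI : ∀ i j, (gram φ y)⁻¹ i j = ∑ k, Pi i k * Pi j k := by
      intro i j
      rw [hP1, Matrix.mul_apply]
      rfl
    have htr : ∑ k, kn (AC F q t C) μ k k = sN⁻¹ * ∑ i, ∑ j, (gram φ y)⁻¹ i j * kf i j := by
      simp only [hkn]
      rw [← Finset.mul_sum]
      congr 1
      rw [Finset.sum_comm]
      refine Finset.sum_congr rfl fun i _ => ?_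
      rw [Finset.sum_comm]
      refine Finset.sum_congr rfl fun j _ => ?_
      rw [hGI, Finset.sum_mul]
    have hsq : ∑ k, ∑ l, kn (AC F q t C) μ k l ^ 2
        = (∑ i, ∑ j, ∑ k, ∑ l, (gram φ y)⁻¹ i k * (gram φ y)⁻¹ j l * (kf i j * kf k l)) / Nf := by
      rw [hsc kf kf, Finset.sum_div]
      refine Finset.sum_congr rfl fun k _ => ?_
      rw [Finset.sum_div]
      refine Finset.sum_congr rfl fun l _ => ?_
      rw [hkn, mul_pow, inv_pow, hsN2, ← _root_.sq]
      field_simp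
    have hbl : bil (kn (AC F q t C) μ) (Pi⁻¹.mulVec U) (Pi⁻¹.mulVec W)
        = sN⁻¹ * ((√a)⁻¹ * (√s)⁻¹ * (bil kf P Q - b / a * bil kf P P)) := by
      rw [hkn', ← bil_change (fun i j => sN⁻¹ * kf i j) (fun a i => Pi i a)
        (Pi⁻¹.mulVec U) (Pi⁻¹.mulVec W) U W (hback U) (hback W)]
      simp only [bil, hU, hW, Finset.mul_sum, ← Finset.sum_sub_distrib]
      refine Finset.sum_congr rfl fun i _ => Finset.sum_congr rfl fun j _ => ?_
      ring
    have e3 : (inner ℝ (Hv (AC F q t C)) μ : ℝ) ^ 2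
        = (∑ i, ∑ j, (gram φ y)⁻¹ i j * kf i j) ^ 2 / Nf := by
      rw [Hv_kn, htr, mul_pow, inv_pow, hsN2]
      field_simp
    refine Prod.ext ?_ (Prod.ext ?_ ?_)
    · simp only
      rw [hbl, hdisc, mul_pow, mul_pow, mul_pow, inv_pow, inv_pow, inv_pow, hsN2, hsa, hss]
      field_simp
    · simp only
      rw [ip0_eq hn, hsq, ← Hv_kn, e3]
    · simp only
      rw [e3]

end

/-- Proof of `StPBN`. -/
theorem hPBN (hNJ0 : StNJ0) (hGCP : StGCP) (hNJ1 : StNJ1) (hSPN : StSPN) (hFR : StFR) (hNR : StNR)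
    (_hG1 : StG1) (hG2 : StG2) : StPBN := by
  intro n N hn M _ _ _ J F hF p₀ t₀ ht L u θ hch A T hA hT
  obtain ⟨g1, g2, g3⟩ := hGCP n N M J F hF.mcf.toIsImmJ p₀ t₀ ht L u θ hch
  obtain ⟨-, -, -, hsph, -⟩ := hSPN n N hn M J F hF p₀ t₀ ht L u θ hch A T hA hT
  have hLe : ∀ v : EE n, L v = ∑ i, v i • L (ee i) := by
    intro v
    have h1 : v = ∑ i, v i • (ee i : EE n) := by
      ext j
      simp [ee, Finset.sum_apply, Pi.single_apply]
    conv_lhs => rw [h1]
    rw [map_sum]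
    simp
  refine ⟨?_, ?_⟩
  · rintro z₀ ⟨C, ν, ⟨c1, c2, c3, c4⟩, P', Q', ⟨o1, o2, o3⟩, hz⟩
    -- the orthogonal matrix
    have hO0 : ∀ i, ∃ U : Fin n → ℝ, tv F p₀ t₀ (C i) = ∑ a, U a • L (ee a) := fun i => by
      obtain ⟨U, V, h1, -, -⟩ := g2 (C i) (C i)
      exact ⟨U, h1⟩
    choose O hO using hO0
    have hAC : ∀ i j, AC F p₀ t₀ C i j = bilV A (O i) (O j) := by
      intro i j
      obtain ⟨U, V, h1, h2, h3⟩ := g2 (C i) (C j)
      have e1 : U = O i := on_inj _ (L_on L) _ _ (h1.symm.trans (hO i))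
      have e2 : V = O j := on_inj _ (L_on L) _ _ (h2.symm.trans (hO j))
      rw [AC, h3, e1, e2, hA]
    have hrow : ∀ i j, ∑ a, O i a * O j a = if i = j then 1 else 0 := by
      intro i j
      have h1 := c1 i j
      rw [gb, hO, hO, inner_sum_on _ (L_on L)] at h1
      exact h1
    have hcol : ∀ a b, ∑ i, O i a * O i b = if a = b then 1 else 0 := by
      intro a b
      have h1 : (Matrix.of O : Matrix (Fin n) (Fin n) ℝ) * (Matrix.of O).transpose = 1 := by
        ext i j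
        rw [Matrix.mul_apply, Matrix.one_apply]
        simpa using hrow i j
      have h2 := mul_eq_one_comm.1 h1
      have h3 := congrFun (congrFun h2 a) b
      rw [Matrix.mul_apply, Matrix.one_apply] at h3
      simpa using h3
    have hkn : kn (AC F p₀ t₀ C) ν = fun i j => bil (kn A ν) (O i) (O j) := by
      funext i j
      rw [Helper35.HG.kn, hAC, kn_bilV]
    have hUN : UN L (F p₀ t₀) ν := by
      refine ⟨c2, fun v => ?_, c3⟩
      obtain ⟨c, d, h1, -, -⟩ := g3 (fun i => v i) (fun i => v i)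
      rw [hLe v, ← h1]
      exact c4 c
    set P : Fin n → ℝ := fun a => ∑ i, P' i * O i a with hP
    set Q : Fin n → ℝ := fun a => ∑ i, Q' i * O i a with hQ
    have hdot : ∀ X Y : Fin n → ℝ, ∑ a, (∑ i, X i * O i a) * (∑ i, Y i * O i a)
        = ∑ i, X i * Y i := by
      intro X Y
      have h1 : ∀ X : Fin n → ℝ, ∑ a, (∑ i, X i * O i a) • L (ee a)
          = ∑ i, X i • ∑ a, O i a • L (ee a) := by
        intro X
        simp only [Finset.sum_smul, Finset.smul_sum, mul_smul]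
        rw [Finset.sum_comm]
      rw [← inner_sum_on _ (L_on L), h1, h1]
      refine inner_sum_on _ (fun i j => ?_) X Y
      rw [inner_sum_on _ (L_on L)]
      exact hrow i j
    have hOP : OP P Q := by
      refine ⟨?_, ?_, ?_⟩
      · rw [← o1]
        have := hdot P' P'
        simp only [← _root_.sq] at this
        exact this
      · rw [← o2]
        have := hdot Q' Q'
        simp only [← _root_.sq] at this
        exact this
      · rw [← o3]
        exact hdot P' Q'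
    have hval : z₀ = (bil (kn A ν) P Q ^ 2, ip0 (kn A ν) (kn A ν),
        (inner ℝ (Hv A) ν : ℝ) ^ 2) := by
      have e1 : bil (kn (AC F p₀ t₀ C) ν) P' Q' = bil (kn A ν) P Q := by
        rw [hkn, ← bil_change (kn A ν) O P' Q' P Q (fun i => rfl) (fun i => rfl)]
      have e3 : (inner ℝ (Hv (AC F p₀ t₀ C)) ν : ℝ) = inner ℝ (Hv A) ν := by
        rw [Hv_kn, Hv_kn, hkn]
        exact orth_tr _ _ hcol
      have e2 : ip0 (kn (AC F p₀ t₀ C) ν) (kn (AC F p₀ t₀ C) ν) = ip0 (kn A ν) (kn A ν) := by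
        rw [ip0_eq hn, ip0_eq hn, ← Hv_kn, ← Hv_kn, e3, hkn]
        congr 1
        exact orth_sq _ _ hcol
      rw [hz, e1, e2, e3]
    obtain ⟨⟨x1, x2, x3, x4, x5, x6, x7⟩, hb⟩ := hNJ1 n N (F p₀ t₀) L u t₀ hch.sol hsph ν hUN
      A T hA hT _ _ rfl rfl
    obtain ⟨y1, y2, y3⟩ := hb P Q hOP _ _ _ rfl rfl rfl
    refine ⟨P, Q, ν, _, _, _, hOP, hUN, hval, y1, x5, x1, ?_, ?_, y3, x7, x4, x3⟩
    · rw [hval]
      refine Prod.ext y2 (Prod.ext x6 x2)
    · have hNc : ∀ᶠ z in 𝓝 ((0 : EE n), t₀), 0 < NfG (F p₀ t₀) L u ν z := by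
        obtain ⟨w1, w2, -⟩ := hNJ0 n N (F p₀ t₀) L u t₀ hch.sol hsph ν hUN A T hA hT
        have w3 : 0 < NfG (F p₀ t₀) L u ν (0, t₀) := by rw [w2]; norm_num
        exact w1.continuousAt.eventually (lt_mem_nhds w3)
      have hJ : ∀ᶠ z in 𝓝 ((0 : EE n), t₀), z.2 ∈ J :=
        continuousAt_snd.eventually (hF.mcf.toIsImmJ.op.mem_nhds ht)
      filter_upwards [g1, hG2 n N (F p₀ t₀) L u t₀ hch.sol, hsph, hch.eq, hch.ts, hJ, hNc] with
        z hz1 hz2 hz3 hz4 hz5 hz6 hz7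
      have key := mem_gen (q := θ z) (t := z.2) hFR hNR hn hF.mcf.toIsImmJ hz6
        (grf (F p₀ t₀) L u z.2) z.1 hz2.2.2.2.2 hz1 hz5 hz4 (rr n z.2) hz3.1 hz3.2.1 hz3.2.2 ν
        hUN.n1 (NfG (F p₀ t₀) L u ν z) rfl hz7 (fun i j => kfG (F p₀ t₀) L u ν i j z)
        (fun i j => rfl) P Q hOP (fun c d => inner ℝ (∑ i, c i • dv1 (grf (F p₀ t₀) L u z.2) z.1 i)
        (∑ i, d i • dv1 (grf (F p₀ t₀) L u z.2) z.1 i)) (fun _ _ => rfl)
      have hb1 : ∀ X Y : Fin n → ℝ, bil (fun i j => kfG (F p₀ t₀) L u ν i j z) X Y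
          = ∑ i, ∑ j, X i * Y j * kfG (F p₀ t₀) L u ν i j z := by
        intro X Y
        simp only [bil]
        refine Finset.sum_congr rfl fun i _ => Finset.sum_congr rfl fun j _ => ?_
        ring
      rw [hb1, hb1] at key
      exact key
  · intro P Q ν hOP hUN
    have hC0 : ∀ i : Fin n, ∃ c : Fin n → ℝ, tv F p₀ t₀ c = L (ee i) := fun i => by
      obtain ⟨c, d, h1, -, -⟩ := g3 (fun j => (ee i : EE n) j) (fun j => (ee i : EE n) j)
      exact ⟨c, by rw [h1, ← hLe]⟩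
    choose C hC using hC0
    have hAC : AC F p₀ t₀ C = A := by
      funext i j
      obtain ⟨c, d, h1, h2, h3⟩ := g3 (fun k => (ee i : EE n) k) (fun k => (ee j : EE n) k)
      rw [← hLe] at h1 h2
      have e1 : c = C i := tv_inj hF.mcf.toIsImmJ ht (h1.trans (hC i).symm)
      have e2 : d = C j := tv_inj hF.mcf.toIsImmJ ht (h2.trans (hC j).symm)
      rw [AC, ← e1, ← e2, h3, ← hA]
      simp [bilV, ee]
    refine ⟨C, ν, ⟨fun i j => ?_, hUN.n1, hUN.nx, fun c => ?_⟩, P, Q, hOP, ?_⟩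
    · rw [gb, hC, hC]
      exact L_on L i j
    · obtain ⟨U, V, h1, -, -⟩ := g2 c c
      rw [h1, inner_sum]
      refine Finset.sum_eq_zero fun i _ => ?_
      rw [inner_smul_right, hUN.nL, mul_zero]
    · rw [hAC]

end Helper67.HG
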